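import Pool.Agent.V11141.LR.Core

/-!
# Matrices of low rank whose support contains no large complete bipartite graph: the bound
-/

set_option autoImplicit false
set_option linter.unusedSectionVars false

namespace Pool.Agent.V11141.LR

open Finset

variable {R C F : Type} [Fintype R] [Fintype C] [DecidableEq R] [DecidableEq C] [Field F]
  [DecidableEq F]

theorem cols_bound (M : R → C → F) {t s ρ : ℕ} (ht : 1 ≤ t) (hρ : 1 ≤ ρ)
    (h : ∀ T : Finset R, T.card = t → ∀ B : Finset C, (∀ a ∈ T, ∀ b ∈ B, M a b ≠ 0) → B.card ≤ s)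
    (hrank : Module.finrank F (Submodule.span F (Set.range M)) ≤ ρ)
    (A : Finset R) (B : Finset C) (hdeg : ∀ c ∈ B, t ≤ (nc M A c).card) :
    B.card ≤ 2 * s * (4 * t * ρ) ^ t := by
  by_contra hcon
  push Not at hcon
  set N := B.card with hN
  set D := N / (2 * ρ) with hD
  obtain ⟨S, hSB, hcard, hS⟩ := process M A D B
  have h1 : D * ff M B ≤ D * ρ := Nat.mul_le_mul_left _ ((ff_le M B).trans hrank)
  have h2 : 2 * (D * ρ) ≤ N := by
    have := Nat.div_mul_le_self N (2 * ρ)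
    calc 2 * (D * ρ) = D * (2 * ρ) := by ring
      _ ≤ N := this
  have h3 : N ≤ 2 * S.card := by
    have h4 : N + D * ff M S ≤ S.card + D * ff M B := hcard
    omega
  have hxN : S.card ≤ N := card_le_card hSB
  set A1 := A.filter (fun r => (nb M S r).Nonempty) with hA1
  have hnc : ∀ c ∈ S, nc M A1 c = nc M A c := by
    intro c hc
    ext r
    unfold nc
    rw [mem_filter, mem_filter, mem_filter]
    constructor
    · rintro ⟨⟨h4, _⟩, h5⟩
      exact ⟨h4, h5⟩
    · rintro ⟨h4, h5⟩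
      exact ⟨⟨h4, ⟨c, mem_filter.2 ⟨hc, h5⟩⟩⟩, h5⟩
  have hd : ∀ c ∈ S, t ≤ (nc M A1 c).card := by
    intro c hc
    rw [hnc c hc]
    exact hdeg c (hSB hc)
  have h5 : ∀ r ∈ A1, D + 1 ≤ (nb M S r).card := by
    intro r hr
    rw [hA1, mem_filter] at hr
    rcases hS r hr.1 with h6 | h6
    · rw [h6] at hr
      exact absurd hr.2 (by simp)
    · exact h6
  have h6 : A1.card * (D + 1) ≤ ∑ c ∈ S, (nc M A1 c).card := by
    rw [← sum_nb_nc]
    have := card_nsmul_le_sum A1 (fun r => (nb M S r).card) (D + 1) h5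
    rwa [smul_eq_mul] at this
  have h7 : N < 2 * ρ * (D + 1) := Nat.lt_mul_div_succ N (by omega)
  set y : C → ℕ := fun c => (nc M A1 c).card + 1 - t with hy
  have h8 : ∑ c ∈ S, y c ^ t ≤ s * A1.card ^ t := pow_sum M t s h A1 S
  have h9 : ∑ c ∈ S, (nc M A1 c).card = ∑ c ∈ S, y c + S.card * (t - 1) := by
    rw [← smul_eq_mul, ← sum_const, ← sum_add_distrib]
    refine sum_congr rfl fun c hc => ?_
    have := hd c hc
    simp only [hy]
    omega
  set Y := ∑ c ∈ S, y c with hY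
  set a := A1.card with ha
  set x := S.card with hx
  have h10 : N * a ≤ 2 * ρ * (Y + x * (t - 1)) := by
    calc N * a ≤ 2 * ρ * (D + 1) * a := Nat.mul_le_mul_right _ h7.le
      _ = 2 * ρ * (a * (D + 1)) := by ring
      _ ≤ 2 * ρ * (Y + x * (t - 1)) := Nat.mul_le_mul_left _ (by rw [← h9]; exact h6)
  have hN0 : 0 < N := lt_of_le_of_lt (Nat.zero_le _) hcon
  have hx0 : 0 < x := by omega
  obtain ⟨c0, hc0⟩ : S.Nonempty := card_pos.1 hx0
  have ha0 : 0 < a := by
    have h11 := hd c0 hc0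
    have h12 : (nc M A1 c0).card ≤ A1.card := card_le_card (filter_subset _ _)
    omega
  by_cases hcase : 4 * (t - 1) * ρ ≤ a
  · have h11 : N * a ≤ 4 * ρ * Y := by
      have h12 : 4 * (t - 1) * ρ * x ≤ a * N := Nat.mul_le_mul hcase hxN
      have h13 : 2 * (2 * ρ * (Y + x * (t - 1))) = 4 * ρ * Y + 4 * (t - 1) * ρ * x := by ring
      have h14 : a * N = N * a := Nat.mul_comm _ _
      omega
    obtain ⟨k, rfl⟩ : ∃ k, t = k + 1 := ⟨t - 1, by omega⟩
    have h12 : (Y : ℝ) ^ (k + 1) ≤ (x : ℝ) ^ k * (s * (a : ℝ) ^ (k + 1)) := by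
      have h13 := pow_sum_div_card_le_sum_pow (s := S) (f := fun c => (y c : ℝ))
        (fun c _ => Nat.cast_nonneg _) k
      have hxp : (0 : ℝ) < (S.card : ℝ) ^ k := by
        have : (0 : ℝ) < (S.card : ℝ) := by exact_mod_cast hx0
        positivity
      rw [div_le_iff₀ hxp] at h13
      have h14 : (Y : ℝ) = ∑ c ∈ S, (y c : ℝ) := by rw [hY]; push_cast; rfl
      have h15 : (∑ c ∈ S, (y c : ℝ) ^ (k + 1)) ≤ (s : ℝ) * (a : ℝ) ^ (k + 1) := by
        exact_mod_cast h8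
      rw [h14]
      calc (∑ c ∈ S, (y c : ℝ)) ^ (k + 1) ≤ (∑ c ∈ S, (y c : ℝ) ^ (k + 1)) * (S.card : ℝ) ^ k := h13
        _ ≤ (s : ℝ) * (a : ℝ) ^ (k + 1) * (S.card : ℝ) ^ k :=
            mul_le_mul_of_nonneg_right h15 hxp.le
        _ = (x : ℝ) ^ k * (s * (a : ℝ) ^ (k + 1)) := by rw [hx]; ring
    have haR : (0 : ℝ) < a := by exact_mod_cast ha0
    have hNR : (0 : ℝ) < N := by exact_mod_cast hN0
    have hxNR : (x : ℝ) ≤ N := by exact_mod_cast hxN
    have h13 : (N : ℝ) * a ≤ 4 * ρ * Y := by exact_mod_cast h11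
    have h14 : ((N : ℝ) * a) ^ (k + 1) ≤ (4 * ρ) ^ (k + 1) * ((N : ℝ) ^ k * (s * (a : ℝ) ^ (k + 1))) := by
      calc ((N : ℝ) * a) ^ (k + 1) ≤ (4 * ρ * Y) ^ (k + 1) := pow_le_pow_left₀ (by positivity) h13 _
        _ = (4 * ρ) ^ (k + 1) * (Y : ℝ) ^ (k + 1) := by rw [mul_pow]
        _ ≤ (4 * ρ) ^ (k + 1) * ((x : ℝ) ^ k * (s * (a : ℝ) ^ (k + 1))) :=
            mul_le_mul_of_nonneg_left h12 (by positivity)
        _ ≤ (4 * ρ) ^ (k + 1) * ((N : ℝ) ^ k * (s * (a : ℝ) ^ (k + 1))) := by gcongr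
    have h15 : (N : ℝ) ≤ (4 * ρ) ^ (k + 1) * s := by
      have hp : (0 : ℝ) < (N : ℝ) ^ k * (a : ℝ) ^ (k + 1) := by positivity
      refine le_of_mul_le_mul_right ?_ hp
      calc (N : ℝ) * ((N : ℝ) ^ k * (a : ℝ) ^ (k + 1)) = ((N : ℝ) * a) ^ (k + 1) := by ring
        _ ≤ _ := h14
        _ = (4 * ρ) ^ (k + 1) * s * ((N : ℝ) ^ k * (a : ℝ) ^ (k + 1)) := by ring
    have h16 : N ≤ (4 * ρ) ^ (k + 1) * s := by exact_mod_cast h15
    have h17 : (4 * ρ) ^ (k + 1) ≤ (4 * (k + 1) * ρ) ^ (k + 1) := by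
      apply Nat.pow_le_pow_left
      nlinarith [Nat.zero_le (k * ρ)]
    have h18 : (4 * ρ) ^ (k + 1) * s ≤ (4 * (k + 1) * ρ) ^ (k + 1) * s := Nat.mul_le_mul_right _ h17
    have h19 : 2 * s * (4 * (k + 1) * ρ) ^ (k + 1) = 2 * ((4 * (k + 1) * ρ) ^ (k + 1) * s) := by ring
    omega
  · push Not at hcase
    have h11 : x ≤ ∑ c ∈ S, y c ^ t := by
      have := card_nsmul_le_sum S (fun c => y c ^ t) 1 (fun c hc => by
        have h12 : 1 ≤ y c := by
          have := hd c hc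
          simp only [hy]
          omega
        exact Nat.one_le_pow _ _ h12)
      rw [smul_eq_mul, mul_one] at this
      exact this
    have h12 : a ^ t ≤ (4 * t * ρ) ^ t := by
      apply Nat.pow_le_pow_left
      have : 4 * (t - 1) * ρ ≤ 4 * t * ρ := by gcongr; omega
      omega
    have h13 : s * a ^ t ≤ s * (4 * t * ρ) ^ t := Nat.mul_le_mul_left _ h12
    have h14 : 2 * s * (4 * t * ρ) ^ t = 2 * (s * (4 * t * ρ) ^ t) := by ring
    omega

/-- one orientation of the bound for the minimum degree -/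
theorem min_deg_le (M : R → C → F) {t s ρ : ℕ} (ht : 1 ≤ t) (hs : 1 ≤ s) (hρ : 1 ≤ ρ)
    (h : ∀ T : Finset R, T.card = t → ∀ B : Finset C, (∀ a ∈ T, ∀ b ∈ B, M a b ≠ 0) → B.card ≤ s)
    (hrank : Module.finrank F (Submodule.span F (Set.range M)) ≤ ρ)
    (A : Finset R) (B : Finset C) (hB : B.Nonempty) (hAB : A.card ≤ B.card) {d : ℕ} (htd : t ≤ d)
    (hdeg : ∀ c ∈ B, d ≤ (nc M A c).card) :
    d ≤ t + 2 * s * (4 * t * ρ) ^ (t - 1) := by
  have h1 := cols_bound M ht hρ h hrank A B (fun c hc => htd.trans (hdeg c hc))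
  have h2 := pow_sum M t s h A B
  have h3 : B.card * (d + 1 - t) ^ t ≤ s * A.card ^ t := by
    refine le_trans ?_ h2
    have := card_nsmul_le_sum B (fun c => ((nc M A c).card + 1 - t) ^ t) ((d + 1 - t) ^ t)
      (fun c hc => by
        apply Nat.pow_le_pow_left
        have := hdeg c hc
        omega)
    rwa [smul_eq_mul] at this
  have hB0 : 0 < B.card := card_pos.2 hB
  obtain ⟨k, rfl⟩ : ∃ k, t = k + 1 := ⟨t - 1, by omega⟩
  have h4 : (d + 1 - (k + 1)) ^ (k + 1) ≤ s * B.card ^ k := by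
    refine Nat.le_of_mul_le_mul_left ?_ hB0
    calc B.card * (d + 1 - (k + 1)) ^ (k + 1) ≤ s * A.card ^ (k + 1) := h3
      _ ≤ s * B.card ^ (k + 1) := Nat.mul_le_mul_left _ (Nat.pow_le_pow_left hAB _)
      _ = B.card * (s * B.card ^ k) := by ring
  have h5 : s * B.card ^ k ≤ (2 * s * (4 * (k + 1) * ρ) ^ k) ^ (k + 1) := by
    calc s * B.card ^ k ≤ (2 * s) * (2 * s * (4 * (k + 1) * ρ) ^ (k + 1)) ^ k := by
          apply Nat.mul_le_mul (by omega)
          exact Nat.pow_le_pow_left h1 _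
      _ = (2 * s * (4 * (k + 1) * ρ) ^ k) ^ (k + 1) := by
          generalize 4 * (k + 1) * ρ = X
          rw [mul_pow (2 * s) (X ^ (k + 1)) k, mul_pow (2 * s) (X ^ k) (k + 1), ← pow_mul,
            ← pow_mul, mul_comm (k + 1) k]
          ring
  have h6 : (d + 1 - (k + 1)) ≤ 2 * s * (4 * (k + 1) * ρ) ^ k :=
    (Nat.pow_le_pow_iff_left (by omega)).1 (h4.trans h5)
  rw [Nat.add_sub_cancel]
  omega

/-- the number of nonzero entries in the rows `A` and the columns `B` -/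
theorem sum_le (M : R → C → F) {t s ρ : ℕ} (ht : 1 ≤ t) (hs : 1 ≤ s) (hρ : 1 ≤ ρ)
    (h : ∀ T : Finset R, T.card = t → ∀ B : Finset C, (∀ a ∈ T, ∀ b ∈ B, M a b ≠ 0) → B.card ≤ s)
    (h' : ∀ T : Finset C, T.card = t → ∀ A : Finset R, (∀ b ∈ T, ∀ a ∈ A, M a b ≠ 0) → A.card ≤ s)
    (hrank : Module.finrank F (Submodule.span F (Set.range M)) ≤ ρ)
    (hrank' : Module.finrank F (Submodule.span F (Set.range (fun c r => M r c))) ≤ ρ) :
    ∀ (n : ℕ) (A : Finset R) (B : Finset C), A.card + B.card = n →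
      ∑ c ∈ B, (nc M A c).card ≤ (t + 2 * s * (4 * t * ρ) ^ (t - 1)) * n := by
  intro n
  set K := t + 2 * s * (4 * t * ρ) ^ (t - 1) with hK
  induction n with
  | zero =>
    intro A B hAB
    have hB : B = ∅ := card_eq_zero.1 (by omega)
    rw [hB]
    simp
  | succ n ih =>
    intro A B hAB
    by_cases h1 : ∃ c ∈ B, (nc M A c).card ≤ K
    · obtain ⟨c, hc, hcK⟩ := h1
      rw [← add_sum_erase _ _ hc]
      have h2 := card_erase_of_mem hc
      have h3 : 0 < B.card := card_pos.2 ⟨c, hc⟩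
      have h4 := ih A (B.erase c) (by omega)
      rw [mul_add, mul_one, add_comm]
      exact Nat.add_le_add h4 hcK
    by_cases h2 : ∃ r ∈ A, (nb M B r).card ≤ K
    · obtain ⟨r, hr, hrK⟩ := h2
      rw [← sum_nb_nc, ← add_sum_erase _ _ hr, sum_nb_nc]
      have h2 := card_erase_of_mem hr
      have h3 : 0 < A.card := card_pos.2 ⟨r, hr⟩
      have h4 := ih (A.erase r) B (by omega)
      rw [mul_add, mul_one, add_comm]
      exact Nat.add_le_add h4 hrK
    push Not at h1 h2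
    rcases B.eq_empty_or_nonempty with hB | hB
    · rw [hB]
      simp
    · exfalso
      obtain ⟨c, hc⟩ := hB
      have h3 := h1 c hc
      have hA : A.Nonempty := by
        by_contra h0
        rw [not_nonempty_iff_eq_empty] at h0
        rw [h0] at h3
        unfold nc at h3
        simp at h3
      rcases le_total A.card B.card with h4 | h4
      · have := min_deg_le M ht hs hρ h hrank A B ⟨c, hc⟩ h4 (d := K + 1) (by omega)
          (fun c hc => h1 c hc)
        omega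
      · have := min_deg_le (fun c r => M r c) ht hs hρ h' hrank' B A hA h4 (d := K + 1) (by omega)
          (fun r hr => h2 r hr)
        omega

end Pool.Agent.V11141.LR
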