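import Mathlib

/-!
# Matrices of low rank whose support contains no large complete bipartite graph
-/

set_option autoImplicit false
set_option linter.unusedSectionVars false

namespace Pool.Agent.V11141.LR

open Finset

variable {R C F : Type} [Fintype R] [Fintype C] [DecidableEq R] [DecidableEq C] [Field F]
  [DecidableEq F]

/-- restriction of a function to a set of columns -/
def restr (S : Finset C) : (C → F) →ₗ[F] (C → F) where
  toFun f := fun c => if c ∈ S then f c else 0
  map_add' f g := by
    ext c
    by_cases h : c ∈ S <;> simp [h]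
  map_smul' a f := by
    ext c
    by_cases h : c ∈ S <;> simp [h]

theorem restr_restr {S S' : Finset C} (h : S' ⊆ S) (f : C → F) :
    restr S' (restr S f) = restr S' f := by
  ext c
  by_cases hc : c ∈ S'
  · simp [restr, hc, h hc]
  · simp [restr, hc]

/-- the dimension of the restrictions of the rows -/
noncomputable def ff (M : R → C → F) (S : Finset C) : ℕ :=
  Module.finrank F ((Submodule.span F (Set.range M)).map (restr S))

theorem drop (M : R → C → F) {S S' : Finset C} (hS : S' ⊆ S) (r : R)
    (h1 : ∃ c ∈ S, M r c ≠ 0) (h2 : ∀ c ∈ S', M r c = 0) : ff M S' + 1 ≤ ff M S := by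
  set U := (Submodule.span F (Set.range M)).map (restr S) with hU
  have e1 : (Submodule.span F (Set.range M)).map (restr S') = U.map (restr S') := by
    rw [hU, ← Submodule.map_comp]
    congr 1
    refine LinearMap.ext fun f => ?_
    rw [LinearMap.comp_apply, restr_restr hS]
  have e2 : U.map (restr S') = LinearMap.range ((restr S').domRestrict U) := by
    rw [LinearMap.range_domRestrict]
  have e3 := LinearMap.finrank_range_add_finrank_ker ((restr S').domRestrict U)
  have hx : restr S (M r) ∈ U := Submodule.mem_map_of_mem (Submodule.subset_span ⟨r, rfl⟩)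
  have hxk : (⟨restr S (M r), hx⟩ : U) ∈ LinearMap.ker ((restr S').domRestrict U) := by
    rw [LinearMap.mem_ker, LinearMap.domRestrict_apply, restr_restr hS]
    ext c
    by_cases hc : c ∈ S'
    · simp [restr, hc, h2 c hc]
    · simp [restr, hc]
  have hker : 1 ≤ Module.finrank F (LinearMap.ker ((restr S').domRestrict U)) := by
    rw [Submodule.one_le_finrank_iff, Submodule.ne_bot_iff]
    refine ⟨⟨restr S (M r), hx⟩, hxk, ?_⟩
    intro h0
    obtain ⟨c, hc, hc0⟩ := h1
    have h4 : restr S (M r) = 0 := congrArg Subtype.val h0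
    have h5 := congrFun h4 c
    simp only [restr, LinearMap.coe_mk, AddHom.coe_mk, hc, if_true, Pi.zero_apply] at h5
    exact hc0 h5
  unfold ff
  rw [e1, e2, ← hU]
  omega

theorem ff_le (M : R → C → F) (S : Finset C) :
    ff M S ≤ Module.finrank F (Submodule.span F (Set.range M)) := by
  unfold ff
  exact Submodule.finrank_map_le _ _

/-- the columns of `S` in the support of the row `r` -/
def nb (M : R → C → F) (S : Finset C) (r : R) : Finset C := S.filter (fun c => M r c ≠ 0)

theorem process (M : R → C → F) (A : Finset R) (D : ℕ) (S : Finset C) : ∃ S' ⊆ S,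
    S.card + D * ff M S' ≤ S'.card + D * ff M S ∧
    ∀ r ∈ A, nb M S' r = ∅ ∨ D < (nb M S' r).card := by
  induction S using Finset.strongInduction with
  | H S ih =>
    by_cases h : ∀ r ∈ A, nb M S r = ∅ ∨ D < (nb M S r).card
    · exact ⟨S, Subset.rfl, le_rfl, h⟩
    · push Not at h
      obtain ⟨r, hr, hne, hcard⟩ := h
      obtain ⟨c, hc⟩ := hne
      have hnbS : nb M S r ⊆ S := filter_subset _ _
      have hss : S \ nb M S r ⊂ S := by
        refine Finset.ssubset_iff_subset_ne.2 ⟨sdiff_subset, fun h => ?_⟩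
        have : c ∈ S \ nb M S r := by rw [h]; exact hnbS hc
        exact (mem_sdiff.1 this).2 hc
      obtain ⟨S', hS', h1, h2⟩ := ih _ hss
      refine ⟨S', hS'.trans sdiff_subset, ?_, h2⟩
      have h3 : ff M (S \ nb M S r) + 1 ≤ ff M S := by
        refine drop M sdiff_subset r ⟨c, hnbS hc, ?_⟩ ?_
        · exact (mem_filter.1 hc).2
        · intro c' hc'
          rw [mem_sdiff] at hc'
          by_contra h0
          exact hc'.2 (mem_filter.2 ⟨hc'.1, h0⟩)
      have h4 := card_sdiff_add_card_eq_card hnbS
      have h5 : D * (ff M (S \ nb M S r) + 1) ≤ D * ff M S := Nat.mul_le_mul_left _ h3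
      nlinarith

/-- the rows of `A` in the support of the column `c` -/
def nc (M : R → C → F) (A : Finset R) (c : C) : Finset R := A.filter (fun r => M r c ≠ 0)

theorem choose_sum (M : R → C → F) (t s : ℕ)
    (h : ∀ T : Finset R, T.card = t → ∀ B : Finset C, (∀ a ∈ T, ∀ b ∈ B, M a b ≠ 0) → B.card ≤ s)
    (A : Finset R) (B : Finset C) :
    ∑ c ∈ B, (nc M A c).card.choose t ≤ s * A.card.choose t := by
  classical
  have h1 := sum_card_bipartiteAbove_eq_sum_card_bipartiteBelow
    (s := B) (t := A.powersetCard t) (fun (c : C) (T : Finset R) => ∀ r ∈ T, M r c ≠ 0)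
  have h2 : ∀ c ∈ B, (nc M A c).card.choose t = ((A.powersetCard t).bipartiteAbove
      (fun (c : C) (T : Finset R) => ∀ r ∈ T, M r c ≠ 0) c).card := by
    intro c _
    rw [← card_powersetCard]
    congr 1
    ext T
    rw [mem_powersetCard, mem_bipartiteAbove, mem_powersetCard]
    constructor
    · rintro ⟨h3, h4⟩
      exact ⟨⟨h3.trans (filter_subset _ _), h4⟩, fun r hr => (mem_filter.1 (h3 hr)).2⟩
    · rintro ⟨⟨h3, h4⟩, h5⟩
      exact ⟨fun r hr => mem_filter.2 ⟨h3 hr, h5 r hr⟩, h4⟩
  rw [sum_congr rfl h2, h1]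
  calc ∑ T ∈ A.powersetCard t, (B.bipartiteBelow
        (fun (c : C) (T : Finset R) => ∀ r ∈ T, M r c ≠ 0) T).card
      ≤ ∑ T ∈ A.powersetCard t, s := by
        refine sum_le_sum fun T hT => ?_
        refine h T (mem_powersetCard.1 hT).2 _ fun a ha b hb => ?_
        rw [mem_bipartiteBelow] at hb
        exact hb.2 a ha
    _ = s * A.card.choose t := by
        rw [sum_const, card_powersetCard, smul_eq_mul, mul_comm]

theorem pow_sum (M : R → C → F) (t s : ℕ)
    (h : ∀ T : Finset R, T.card = t → ∀ B : Finset C, (∀ a ∈ T, ∀ b ∈ B, M a b ≠ 0) → B.card ≤ s)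
    (A : Finset R) (B : Finset C) :
    ∑ c ∈ B, ((nc M A c).card + 1 - t) ^ t ≤ s * A.card ^ t := by
  calc ∑ c ∈ B, ((nc M A c).card + 1 - t) ^ t
      ≤ ∑ c ∈ B, (nc M A c).card.descFactorial t :=
        sum_le_sum fun c _ => Nat.pow_sub_le_descFactorial _ _
    _ = t.factorial * ∑ c ∈ B, (nc M A c).card.choose t := by
        rw [mul_sum]
        exact sum_congr rfl fun c _ => Nat.descFactorial_eq_factorial_mul_choose _ _
    _ ≤ t.factorial * (s * A.card.choose t) := Nat.mul_le_mul_left _ (choose_sum M t s h A B)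
    _ = s * A.card.descFactorial t := by
        rw [Nat.descFactorial_eq_factorial_mul_choose]
        ring
    _ ≤ s * A.card ^ t := Nat.mul_le_mul_left _ (Nat.descFactorial_le_pow _ _)

theorem sum_nb_nc (M : R → C → F) (A : Finset R) (S : Finset C) :
    ∑ r ∈ A, (nb M S r).card = ∑ c ∈ S, (nc M A c).card := by
  have := sum_card_bipartiteAbove_eq_sum_card_bipartiteBelow
    (s := A) (t := S) (fun (r : R) (c : C) => M r c ≠ 0)
  exact this

end Pool.Agent.V11141.LR
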