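import Pool.Agent.V11141.LR.Graph

/-!
# Graphs without `C_{2k}` and the ranks of their matrices
-/

set_option autoImplicit false
set_option linter.unusedSectionVars false

namespace Pool.Agent.V11141.LR

open Finset

theorem parity_of_adj {k : ℕ} {u v : Fin (2 * k)} (h : (SimpleGraph.cycleGraph (2 * k)).Adj u v) :
    (u : ℕ) % 2 ≠ (v : ℕ) % 2 := by
  rw [SimpleGraph.cycleGraph_adj'] at h
  have hu := u.isLt
  have hv := v.isLt
  have key : ∀ a b : Fin (2 * k), ((a - b : Fin (2 * k)) : ℕ) = 1 → (a : ℕ) % 2 ≠ (b : ℕ) % 2 := by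
    intro a b hab
    have ha := a.isLt
    have hb := b.isLt
    have h1 : ((a - b : Fin (2 * k)) : ℕ) = (2 * k - b + a) % (2 * k) := Fin.val_sub a b
    rw [h1] at hab
    have h2 := Nat.div_add_mod (2 * k - b + a) (2 * k)
    rw [hab] at h2
    have h3 : 2 * k * ((2 * k - (b : ℕ) + a) / (2 * k)) =
        2 * (k * ((2 * k - (b : ℕ) + a) / (2 * k))) := by ring
    omega
  rcases h with h | h
  · exact key u v h
  · exact (key v u h).symm

/-- `C_{2k}` is contained in `K_{k,k}` -/
theorem cycle_contained (k : ℕ) :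
    (SimpleGraph.cycleGraph (2 * k)).IsContained (completeBipartiteGraph (Fin k) (Fin k)) := by
  have hlt : ∀ i : Fin (2 * k), (i : ℕ) / 2 < k := fun i => by
    have := i.isLt
    omega
  refine ⟨⟨⟨fun i => if (i : ℕ) % 2 = 0 then Sum.inl ⟨(i : ℕ) / 2, hlt i⟩
    else Sum.inr ⟨(i : ℕ) / 2, hlt i⟩, ?_⟩, ?_⟩⟩
  · intro u v huv
    have h := parity_of_adj huv
    by_cases h1 : (u : ℕ) % 2 = 0
    · have h2 : ¬ (v : ℕ) % 2 = 0 := fun h3 => h (h1.trans h3.symm)
      simp [h1, h2]
    · have h2 : (v : ℕ) % 2 = 0 := by omega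
      simp [h1, h2]
  · intro i j hij
    simp only [RelHom.coeFn_mk] at hij
    apply Fin.ext
    by_cases h1 : (i : ℕ) % 2 = 0
    · by_cases h2 : (j : ℕ) % 2 = 0
      · rw [if_pos h1, if_pos h2] at hij
        have h3 := congrArg Fin.val (Sum.inl_injective hij)
        simp only at h3
        omega
      · rw [if_pos h1, if_neg h2] at hij
        exact absurd hij (by simp)
    · by_cases h2 : (j : ℕ) % 2 = 0
      · rw [if_neg h1, if_pos h2] at hij
        exact absurd hij (by simp)
      · rw [if_neg h1, if_neg h2] at hij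
        have h3 := congrArg Fin.val (Sum.inr_injective hij)
        simp only at h3
        omega

theorem free_of_cycle {V : Type} (G : SimpleGraph V) (k : ℕ)
    (h : (SimpleGraph.cycleGraph (2 * k)).Free G) :
    (completeBipartiteGraph (Fin k) (Fin k)).Free G := fun hc => h ((cycle_contained k).trans hc)

/-- the rank of a graph without `C_{2k}` with many edges -/
theorem rank_lower_cycle (k : ℕ) (hk : 2 ≤ k) (c : ℝ) (hc : 0 < c) : ∃ c' : ℝ, 0 < c' ∧
    ∀ (V F : Type) [Fintype V] [Field F] (G : SimpleGraph V) (M : Matrix V V F),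
    (∀ u v, u ≠ v → (M u v ≠ 0 ↔ G.Adj u v)) →
    (SimpleGraph.cycleGraph (2 * k)).Free G →
    c * (Fintype.card V : ℝ) ^ (1 + 1 / (k : ℝ)) ≤ Nat.card G.edgeSet →
    c' * (Fintype.card V : ℝ) ^ (1 / ((k : ℝ) * ((k : ℝ) - 1))) ≤ (M.rank : ℝ) := by
  have hr0 : (0 : ℝ) < k := by
    have : 0 < k := by omega
    exact_mod_cast this
  have hr1 : (0 : ℝ) < (k : ℝ) - 1 := by
    have : (2 : ℝ) ≤ k := by exact_mod_cast hk
    linarith
  set b : ℝ := c / (5 * k) with hb
  have hb0 : 0 < b := by positivity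
  refine ⟨b ^ (1 / ((k : ℝ) - 1)) / (4 * k), by positivity, ?_⟩
  intro V F _ _ G M hM hfree he
  set n := Fintype.card V with hn
  rcases Nat.eq_zero_or_pos n with hn0 | hn0
  · rw [hn0, Nat.cast_zero, Real.zero_rpow (by positivity), mul_zero]
    positivity
  have hnR : (0 : ℝ) < n := by exact_mod_cast hn0
  have hrk : 1 ≤ M.rank := by
    by_contra h0
    have h1 : M.rank = 0 := by omega
    have h2 : M = 0 := by
      have h3 := Matrix.rank_eq_finrank_span_row M
      rw [h1] at h3
      have h4 := Submodule.finrank_eq_zero.1 h3.symm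
      rw [Submodule.span_eq_bot] at h4
      ext u v
      exact congrFun (h4 (M.row u) ⟨u, rfl⟩) v
    have h3 : Nat.card G.edgeSet = 0 := by
      have : G = ⊥ := by
        ext u v
        constructor
        · intro huv
          have h4 := (hM u v huv.ne).2 huv
          rw [h2] at h4
          exact absurd rfl h4
        · intro huv
          exact absurd huv (by simp)
      rw [this]
      simp
    rw [h3, Nat.cast_zero] at he
    have : 0 < c * (n : ℝ) ^ (1 + 1 / (k : ℝ)) := by positivity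
    linarith
  have hg := graph_bound G M (by omega : 1 ≤ k) hrk le_rfl hM (free_of_cycle G k hfree)
  set X : ℝ := 4 * k * M.rank with hX
  have hrkR : (1 : ℝ) ≤ M.rank := by exact_mod_cast hrk
  have hX0 : 0 < X := by positivity
  have h1 : (Nat.card G.edgeSet : ℝ) ≤ 5 * k * X ^ (k - 1) * n := by
    rw [hX]
    exact_mod_cast hg
  have h2 : (n : ℝ) ^ (1 + 1 / (k : ℝ)) = (n : ℝ) ^ (1 / (k : ℝ)) * n := by
    rw [add_comm, Real.rpow_add hnR, Real.rpow_one]
  have h3 : b * (n : ℝ) ^ (1 / (k : ℝ)) ≤ X ^ (k - 1) := by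
    have h4 := he.trans h1
    rw [h2, ← mul_assoc] at h4
    have h5 := le_of_mul_le_mul_right h4 hnR
    have h6 : c = 5 * k * b := by rw [hb]; field_simp
    rw [h6, mul_assoc] at h5
    exact le_of_mul_le_mul_left h5 (by positivity)
  have h4 : X ^ (k - 1) = X ^ ((k : ℝ) - 1) := by
    rw [← Real.rpow_natCast, Nat.cast_sub (by omega), Nat.cast_one]
  have h5 : (b ^ (1 / ((k : ℝ) - 1)) * (n : ℝ) ^ (1 / ((k : ℝ) * ((k : ℝ) - 1)))) ^ ((k : ℝ) - 1) =
      b * (n : ℝ) ^ (1 / (k : ℝ)) := by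
    rw [Real.mul_rpow (by positivity) (by positivity), ← Real.rpow_mul hb0.le,
      ← Real.rpow_mul hnR.le, one_div_mul_cancel hr1.ne', Real.rpow_one]
    congr 2
    field_simp
  have h6 : b ^ (1 / ((k : ℝ) - 1)) * (n : ℝ) ^ (1 / ((k : ℝ) * ((k : ℝ) - 1))) ≤ X := by
    rw [← Real.rpow_le_rpow_iff (by positivity) hX0.le hr1, h5, ← h4]
    exact h3
  rw [div_mul_eq_mul_div, div_le_iff₀ (by positivity)]
  rw [hX] at h6
  linarith

end Pool.Agent.V11141.LR
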