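import Pool.Agent.V11141.LR.Bound

/-!
# Graphs without `K_{r,r}` and the ranks of their matrices
-/

set_option autoImplicit false
set_option linter.unusedSectionVars false

namespace Pool.Agent.V11141.LR

open Finset

theorem matrix_bound {R C F : Type} [Fintype R] [Fintype C] [Field F] (M : Matrix R C F)
    {t s ρ : ℕ} (ht : 1 ≤ t) (hs : 1 ≤ s) (hρ : 1 ≤ ρ) (hrank : M.rank ≤ ρ)
    (h : ∀ T : Finset R, T.card = t → ∀ B : Finset C, (∀ a ∈ T, ∀ b ∈ B, M a b ≠ 0) → B.card ≤ s)
    (h' : ∀ T : Finset C, T.card = t → ∀ A : Finset R, (∀ b ∈ T, ∀ a ∈ A, M a b ≠ 0) → A.card ≤ s) :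
    Nat.card {p : R × C // M p.1 p.2 ≠ 0} ≤
      (t + 2 * s * (4 * t * ρ) ^ (t - 1)) * (Fintype.card R + Fintype.card C) := by
  classical
  have h1 : Module.finrank F (Submodule.span F (Set.range M)) ≤ ρ := by
    have := Matrix.rank_eq_finrank_span_row M
    rw [this] at hrank
    exact hrank
  have h2 : Module.finrank F (Submodule.span F (Set.range (fun c r => M r c))) ≤ ρ := by
    have := Matrix.rank_eq_finrank_span_cols M
    rw [this] at hrank
    exact hrank
  have h3 := sum_le M ht hs hρ h h' h1 h2 _ univ univ rfl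
  rw [card_univ, card_univ] at h3
  refine le_trans (le_of_eq ?_) h3
  rw [Nat.card_eq_fintype_card, Fintype.card_subtype]
  rw [← sum_nb_nc]
  rw [card_filter, Fintype.sum_prod_type]
  refine sum_congr rfl fun r _ => ?_
  unfold nb
  rw [card_filter]

theorem graph_bound {V F : Type} [Fintype V] [Field F] (G : SimpleGraph V) (M : Matrix V V F)
    {r ρ : ℕ} (hr : 1 ≤ r) (hρ : 1 ≤ ρ) (hrank : M.rank ≤ ρ)
    (hM : ∀ u v, u ≠ v → (M u v ≠ 0 ↔ G.Adj u v))
    (hfree : (completeBipartiteGraph (Fin r) (Fin r)).Free G) :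
    Nat.card G.edgeSet ≤ 5 * r * (4 * r * ρ) ^ (r - 1) * Fintype.card V := by
  classical
  have key : ∀ T : Finset V, T.card = r → ∀ B : Finset V,
      (∀ a ∈ T, ∀ b ∈ B, a ≠ b → G.Adj a b) → B.card ≤ 2 * r := by
    intro T hT B hB
    by_contra hcon
    push Not at hcon
    have h1 : r ≤ (B \ T).card := by
      have := le_card_sdiff T B
      omega
    obtain ⟨B', hB', hB'c⟩ := exists_subset_card_eq h1
    refine hfree ?_
    rw [SimpleGraph.completeBipartiteGraph_isContained_iff]
    refine ⟨T, B', by rw [hT, Fintype.card_fin], by rw [hB'c, Fintype.card_fin], ?_⟩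
    intro a ha b hb
    have h2 := mem_sdiff.1 (hB' hb)
    refine hB a ha b h2.1 ?_
    rintro rfl
    exact h2.2 ha
  have h := matrix_bound M (t := r) (s := 2 * r) (ρ := ρ) hr (by omega) hρ hrank
    (fun T hT B hB => key T hT B fun a ha b hb hab => (hM a b hab).1 (hB a ha b hb))
    (fun T hT A hA => key T hT A fun b hb a ha hba => ((hM a b hba.symm).1 (hA b hb a ha)).symm)
  have h2 : 2 * Nat.card G.edgeSet ≤ Nat.card {p : V × V // M p.1 p.2 ≠ 0} := by
    have h3 : Nat.card G.edgeSet = G.edgeFinset.card := by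
      rw [Nat.card_eq_fintype_card, SimpleGraph.edgeFinset_card]
    rw [h3, ← SimpleGraph.sum_degrees_eq_twice_card_edges, Nat.card_eq_fintype_card,
      Fintype.card_subtype, card_filter, Fintype.sum_prod_type]
    refine sum_le_sum fun v _ => ?_
    rw [← card_filter, ← SimpleGraph.card_neighborFinset_eq_degree]
    refine card_le_card fun w hw => ?_
    rw [SimpleGraph.mem_neighborFinset] at hw
    exact mem_filter.2 ⟨mem_univ _, (hM v w hw.ne).2 hw⟩
  have h4 : 1 ≤ (4 * r * ρ) ^ (r - 1) := Nat.one_le_pow _ _ (by positivity)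
  have h5 : r + 2 * (2 * r) * (4 * r * ρ) ^ (r - 1) ≤ 5 * r * (4 * r * ρ) ^ (r - 1) := by
    nlinarith [Nat.mul_le_mul_left r h4]
  have h6 : 2 * Nat.card G.edgeSet ≤ 2 * (5 * r * (4 * r * ρ) ^ (r - 1) * Fintype.card V) := by
    refine (h2.trans h).trans ?_
    calc (r + 2 * (2 * r) * (4 * r * ρ) ^ (r - 1)) * (Fintype.card V + Fintype.card V)
        ≤ (5 * r * (4 * r * ρ) ^ (r - 1)) * (Fintype.card V + Fintype.card V) :=
          Nat.mul_le_mul_right _ h5
      _ = _ := by ring
  omega

/-- the rank of a graph of extremal order -/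
theorem rank_lower (r : ℕ) (hr : 2 ≤ r) (c : ℝ) (hc : 0 < c) : ∃ c' : ℝ, 0 < c' ∧
    ∀ (V F : Type) [Fintype V] [Field F] (G : SimpleGraph V) (M : Matrix V V F),
    (∀ u v, u ≠ v → (M u v ≠ 0 ↔ G.Adj u v)) →
    (completeBipartiteGraph (Fin r) (Fin r)).Free G →
    c * (Fintype.card V : ℝ) ^ (2 - 1 / (r : ℝ)) ≤ Nat.card G.edgeSet →
    c' * (Fintype.card V : ℝ) ^ (1 / (r : ℝ)) ≤ (M.rank : ℝ) := by
  have hr0 : (0 : ℝ) < r := by
    have : 0 < r := by omega
    exact_mod_cast this
  have hr1 : (0 : ℝ) < (r : ℝ) - 1 := by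
    have : (2 : ℝ) ≤ r := by exact_mod_cast hr
    linarith
  set b : ℝ := c / (5 * r) with hb
  have hb0 : 0 < b := by positivity
  refine ⟨b ^ (1 / ((r : ℝ) - 1)) / (4 * r), by positivity, ?_⟩
  intro V F _ _ G M hM hfree he
  set n := Fintype.card V with hn
  rcases Nat.eq_zero_or_pos n with hn0 | hn0
  · rw [hn0, Nat.cast_zero, Real.zero_rpow (by positivity), mul_zero]
    positivity
  have hnR : (0 : ℝ) < n := by exact_mod_cast hn0
  have hrk : 1 ≤ M.rank := by
    by_contra h0
    have h1 : M.rank = 0 := by omega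
    have h2 : M = 0 := by
      have h3 := Matrix.rank_eq_finrank_span_row M
      rw [h1] at h3
      have h4 := Submodule.finrank_eq_zero.1 h3.symm
      rw [Submodule.span_eq_bot] at h4
      ext u v
      exact congrFun (h4 (M.row u) ⟨u, rfl⟩) v
    have h3 : Nat.card G.edgeSet = 0 := by
      have : G = ⊥ := by
        ext u v
        constructor
        · intro huv
          have h4 := (hM u v huv.ne).2 huv
          rw [h2] at h4
          exact absurd rfl h4
        · intro huv
          exact absurd huv (by simp)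
      rw [this]
      simp
    rw [h3, Nat.cast_zero] at he
    have : 0 < c * (n : ℝ) ^ (2 - 1 / (r : ℝ)) := by positivity
    linarith
  have hg := graph_bound G M (by omega : 1 ≤ r) hrk le_rfl hM hfree
  set X : ℝ := 4 * r * M.rank with hX
  have hrkR : (1 : ℝ) ≤ M.rank := by exact_mod_cast hrk
  have hX0 : 0 < X := by positivity
  have h1 : (Nat.card G.edgeSet : ℝ) ≤ 5 * r * X ^ (r - 1) * n := by
    rw [hX]
    exact_mod_cast hg
  have h2 : (n : ℝ) ^ (2 - 1 / (r : ℝ)) = (n : ℝ) ^ (1 - 1 / (r : ℝ)) * n := by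
    rw [show (2 : ℝ) - 1 / r = (1 - 1 / r) + 1 by ring, Real.rpow_add hnR, Real.rpow_one]
  have h3 : b * (n : ℝ) ^ (1 - 1 / (r : ℝ)) ≤ X ^ (r - 1) := by
    have h4 := he.trans h1
    rw [h2, ← mul_assoc] at h4
    have h5 := le_of_mul_le_mul_right h4 hnR
    have h6 : c = 5 * r * b := by rw [hb]; field_simp
    rw [h6, mul_assoc] at h5
    exact le_of_mul_le_mul_left h5 (by positivity)
  have h4 : X ^ (r - 1) = X ^ ((r : ℝ) - 1) := by
    rw [← Real.rpow_natCast, Nat.cast_sub (by omega), Nat.cast_one]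
  have h5 : (b ^ (1 / ((r : ℝ) - 1)) * (n : ℝ) ^ (1 / (r : ℝ))) ^ ((r : ℝ) - 1) =
      b * (n : ℝ) ^ (1 - 1 / (r : ℝ)) := by
    rw [Real.mul_rpow (by positivity) (by positivity), ← Real.rpow_mul hb0.le,
      ← Real.rpow_mul hnR.le, one_div_mul_cancel hr1.ne', Real.rpow_one]
    congr 2
    field_simp
  have h6 : b ^ (1 / ((r : ℝ) - 1)) * (n : ℝ) ^ (1 / (r : ℝ)) ≤ X := by
    rw [← Real.rpow_le_rpow_iff (by positivity) hX0.le hr1, h5, ← h4]
    exact h3
  rw [div_mul_eq_mul_div, div_le_iff₀ (by positivity)]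
  rw [hX] at h6
  linarith

/-- the rank of a polynomial of a matrix, entry by entry -/
theorem rank_poly {V F : Type} [Fintype V] [Field F] (g : Polynomial F) {d k : ℕ}
    (hg : g.natDegree ≤ k) (a b : V → Fin d → F) :
    (Matrix.of (fun x y => g.eval (∑ i, a x i * b y i)) : Matrix V V F).rank ≤ (d + 1) ^ k := by
  classical
  set B : (Fin k → Option (Fin d)) → (V → F) := fun φ y => ∏ i, ((φ i).elim 1 (b y)) with hB
  have hcard : Module.finrank F (Submodule.span F (Set.range B)) ≤ (d + 1) ^ k := by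
    refine (finrank_range_le_card B).trans (le_of_eq ?_)
    simp
  have hpow : ∀ x : V, ∀ j ≤ k, (fun y => (∑ i, a x i * b y i) ^ j) ∈
      Submodule.span F (Set.range B) := by
    intro x j hj
    set co : Fin k → Option (Fin d) → F := fun i o =>
      if (i : ℕ) < j then o.elim 0 (a x) else o.elim 1 (fun _ => 0) with hco
    have h1 : (fun y => (∑ i, a x i * b y i) ^ j) =
        ∑ φ : Fin k → Option (Fin d), (∏ i, co i (φ i)) • B φ := by
      ext y
      rw [Finset.sum_apply]
      have h2 : (∑ i, a x i * b y i) ^ j =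
          ∏ i : Fin k, ∑ o : Option (Fin d), co i o * (o.elim 1 (b y)) := by
        have h3 : ∀ i : Fin k, ∑ o : Option (Fin d), co i o * (o.elim 1 (b y)) =
            if (i : ℕ) < j then ∑ i, a x i * b y i else 1 := by
          intro i
          rw [Fintype.sum_option]
          by_cases hi : (i : ℕ) < j
          · simp [hco, hi]
          · simp [hco, hi]
        rw [prod_congr rfl fun i _ => h3 i, prod_ite, prod_const_one, mul_one, prod_const]
        congr 1
        rw [Fin.card_filter_val_lt]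
        exact (min_eq_right hj).symm
      rw [h2, prod_univ_sum, Fintype.piFinset_univ]
      refine sum_congr rfl fun φ _ => ?_
      rw [prod_mul_distrib, Pi.smul_apply, smul_eq_mul]
    rw [h1]
    exact Submodule.sum_mem _ fun φ _ => Submodule.smul_mem _ _ (Submodule.subset_span ⟨φ, rfl⟩)
  rw [Matrix.rank_eq_finrank_span_row]
  refine le_trans (Submodule.finrank_mono ?_) hcard
  rw [Submodule.span_le]
  rintro _ ⟨x, rfl⟩
  have h1 : (Matrix.of (fun x y => g.eval (∑ i, a x i * b y i)) : Matrix V V F).row x =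
      ∑ j ∈ range (k + 1), g.coeff j • (fun y => (∑ i, a x i * b y i) ^ j) := by
    ext y
    rw [Finset.sum_apply]
    change g.eval (∑ i, a x i * b y i) = _
    rw [Polynomial.eval_eq_sum_range' (Nat.lt_succ_of_le hg)]
    rfl
  rw [h1]
  exact Submodule.sum_mem _ fun j hj =>
    Submodule.smul_mem _ _ (hpow x j (Nat.lt_succ_iff.1 (mem_range.1 hj)))

/-- a polynomial which vanishes exactly outside of `A` -/
theorem exists_poly {F : Type} [Field F] [Fintype F] (A : Set F) :
    ∃ g : Polynomial F, g.natDegree ≤ Fintype.card F - 1 ∧ ∀ z : F, g.eval z ≠ 0 ↔ z ∈ A := by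
  classical
  set w : F → F := fun z => if z ∈ A then 1 else 0 with hw
  refine ⟨Lagrange.interpolate univ id w, ?_, ?_⟩
  · have h1 := Lagrange.degree_interpolate_lt (s := (univ : Finset F)) (v := id) w
      (Function.injective_id.injOn)
    rw [card_univ] at h1
    have h0 : 0 < Fintype.card F := Fintype.card_pos
    by_cases h3 : Lagrange.interpolate univ id w = 0
    · rw [h3, Polynomial.natDegree_zero]
      omega
    · have h4 := (Polynomial.natDegree_lt_iff_degree_lt h3).2 h1
      omega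
  · intro z
    have h1 := Lagrange.eval_interpolate_at_node (s := (univ : Finset F)) (v := id) w
      (Function.injective_id.injOn) (mem_univ z)
    rw [id] at h1
    rw [h1, hw]
    by_cases hz : z ∈ A <;> simp [hz]

/-- graphs given by the values of an inner product over a finite field -/
theorem inner_bound {V F : Type} [Fintype V] [Field F] [Fintype F] {d r : ℕ} (hr : 1 ≤ r)
    (a b : V → Fin d → F) (A : Set F) (G : SimpleGraph V)
    (hG : ∀ u v, G.Adj u v ↔ u ≠ v ∧ ∑ i, a u i * b v i ∈ A)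
    (hfree : (completeBipartiteGraph (Fin r) (Fin r)).Free G) :
    Nat.card G.edgeSet ≤
      5 * r * (4 * r * (d + 1) ^ (Fintype.card F - 1)) ^ (r - 1) * Fintype.card V := by
  classical
  obtain ⟨g, hg1, hg2⟩ := exists_poly A
  refine graph_bound G (Matrix.of (fun x y => g.eval (∑ i, a x i * b y i))) hr
    (Nat.one_le_pow _ _ (by omega)) (rank_poly g hg1 a b) ?_ hfree
  intro u v huv
  rw [hG, Matrix.of_apply, hg2]
  exact ⟨fun h => ⟨huv, h⟩, fun h => h.2⟩

end Pool.Agent.V11141.LR
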